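import Pool.Agent.H723.LZM.Lehmer

/-!
# Lehmer's problem for polynomials with compressible coefficient sequences

Words with integer letters are identified with integer polynomials (the word is the sequence of the
coefficients).  A program (`Program`, `Computes z f`: `f` is computed with `z` instructions) starts
with the zero polynomial; an instruction adds to an earlier polynomial a monomial `c X ^ n`, or an
integer multiple, written from any position on, of

* a word of any length which is periodic, up to the sign of the successive periods, and whose period
  is a factor (a block of consecutive coefficients) of an earlier polynomial (`per`); or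
* a factor of an earlier polynomial read backwards (`bwd`).

`LZ z f` says that the coefficient sequence has a Lempel-Ziv parse with `z` phrases (single letters,
copies of earlier blocks up to sign, which may overlap their sources, and reversed copies up to
sign).  The degree is not bounded in terms of `z`: a periodic run is one phrase.

1. A Lempel-Ziv parse with `z` phrases is a program with `z` instructions.
2. If `f` is computed with `z` instructions then there is a product `D` of at most `z` polynomials
   `1 ± X ^ d` such that `D f` has at most `8 ^ z` terms.
3. There is `C` such that `M(f) = 1` or `M(f) ≥ exp (exp (- C z))` for all `f` computed with `z`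
   instructions, whatever the degree, the coefficients and the cyclotomic factors of `f`.
4. There is `c > 0` such that `M(f) = 1` or `log M(f) ≥ c / (1 + z + log H) ^ 3` if, moreover, `f` is
   irreducible and its coefficients are at most `H` in absolute value.

Part 2 is the new ingredient (`Pool/Agent/H723/LZM/Prog.lean`): after multiplication by
`D`, all windows of all the words of the program have few terms.  Part 3 then follows from the
library theorem `MonomialCount`; for part 4, `∫ log⁺ |f| ≤ z log 16 + log H` on the unit circle, and the
library theorem `LogPlusMean` applies.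
-/

set_option autoImplicit false

open Polynomial

namespace Pool.Agent.Results.MP_dc0c68_nt.CopyPastePrograms

open Pool.Agent.H723.LZM (LZ Computes)

theorem result :
    (∀ (z : ℕ) (f : ℤ[X]), LZ z f → Computes z f) ∧
    (∀ (z : ℕ) (f : ℤ[X]), Computes z f → ∃ l : List (ℕ × ℤ), l.length ≤ z ∧
      (∀ x ∈ l, 1 ≤ x.1 ∧ (x.2 = 1 ∨ x.2 = -1)) ∧
      ((l.map fun x => 1 - C x.2 * X ^ x.1).prod * f).support.card ≤ 8 ^ z) ∧
    (∃ C : ℝ, 0 < C ∧ ∀ (z : ℕ) (f : ℤ[X]), Computes z f →
      1 < (f.map (Int.castRingHom ℂ)).mahlerMeasure →
      Real.exp (Real.exp (-(C * z))) ≤ (f.map (Int.castRingHom ℂ)).mahlerMeasure) ∧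
    (∃ c : ℝ, 0 < c ∧ ∀ (z H : ℕ) (f : ℤ[X]), Computes z f → 1 ≤ H → (∀ t, |f.coeff t| ≤ H) →
      Irreducible f → 1 < (f.map (Int.castRingHom ℂ)).mahlerMeasure →
      Real.exp (c / (1 + z + Real.log H) ^ 3) ≤ (f.map (Int.castRingHom ℂ)).mahlerMeasure) := by
  refine ⟨fun z f h => h.computes, ?_, ?_, ?_⟩
  · intro z f h
    obtain ⟨r, hr, D, hD, hnt⟩ := Pool.Agent.H723.LZM.prog_sparse h
    obtain ⟨l, hl, hl2, rfl⟩ := hD.exists_list
    exact ⟨l, hl.le.trans hr, hl2, hnt⟩
  · exact Pool.Agent.H723.LZM.gap_all
  · exact Pool.Agent.H723.LZM.gap_irreducible

end Pool.Agent.Results.MP_dc0c68_nt.CopyPastePrograms
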