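import Pool.Agent.H589.Five.Final

/-!
# Lehmer's inequality for integer polynomials with a cyclotomic multiple with at most five terms

If `f` is a nonzero integer polynomial and `f * Φ` has at most five nonzero coefficients (arbitrary
integers) for some integer polynomial `Φ` of Mahler measure one, then the Mahler measure of `f` is
`1`, or that of Lehmer's polynomial, or at least `6 / 5`.
-/

set_option autoImplicit false

open Polynomial

namespace Pool.Agent.Results.MP_dc0c68_nt.FiveTerms

/-- the Mahler measure of an integer polynomial -/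
noncomputable def M (f : ℤ[X]) : ℝ := (f.map (Int.castRingHom ℂ)).mahlerMeasure

/-- Lehmer's polynomial -/
noncomputable def L : ℤ[X] :=
  X ^ 10 + X ^ 9 - X ^ 7 - X ^ 6 - X ^ 5 - X ^ 4 - X ^ 3 + X + 1

/-- Lehmer's inequality for the polynomials with a multiple `f * Φ`, `M Φ = 1`, with at most
five nonzero coefficients; Lehmer's polynomial is one of them. -/
theorem result :
    (∀ f Φ : ℤ[X], f ≠ 0 → M Φ = 1 → (f * Φ).support.card ≤ 5 →
      M f = 1 ∨ M f = M L ∨ 6 / 5 ≤ M f) ∧
    1 < M L ∧ M L < 6 / 5 ∧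
    (∃ Φ : ℤ[X], M Φ = 1 ∧ (L * Φ).support.card = 5) := by
  refine ⟨fun f Φ hf hΦ h => Pool.Agent.H589.Five.good_five_mul f Φ hf hΦ h,
    Pool.Agent.H589.Pent.lehmer_gt, Pool.Agent.H589.Pent.lehmer_lt,
    X ^ 2 - X + 1, Pool.Agent.H589.Pent.MM_cyc6, ?_⟩
  exact Pool.Agent.H589.Five.card_lehmer_mul

end Pool.Agent.Results.MP_dc0c68_nt.FiveTerms
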