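import Pool.Agent.H270.SP.Leh
import Pool.Agent.H270.SP.HInt
import Pool.Agent.H270.SP.HLin
import Pool.Agent.H270.SP.HJay
import Pool.Agent.H270.SP.CDim
import Pool.Agent.H270.SP.CBack
import Pool.Agent.H270.SP.CFix
import Pool.Agent.H270.SP.CCnt

/-!
# A lower bound for the Mahler measure of Alexander polynomials, independent of the degree

Let `U`, `V` be integral matrices of any size with `d_i U_ij = d_j V_ji` for positive real numbers
`d_i` (if all `d_i` are `1` then `V` is the transpose of the arbitrary integral matrix `U`), such that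
the quadratic form `∑ d_i U_ij x_i x_j` has at most `k` negative squares. Let the self-reciprocal
polynomial `F = det (X U + V)` be irreducible with `M(F) > 1`. (Up to the substitution `X ↦ - X` it is
the Alexander polynomial of the Seifert matrix `U`. Lehmer's polynomial is of this form, with `k = 1`.)
Let `G` be the polynomial of the matrices without the row and the column `i`, for any `i` for which it
is not `0`. We show that `log M(F) ≥ c / (1 + k log (k + 2) + log M(G))³`, with an absolute constant
`c > 0`. If the form of the matrix `U_i` without the row and the column `i` is positive semidefinite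
and `det U_i ≠ 0` then `log M(F) ≥ c / (1 + log |det U_i|)³`.

So for irreducible `F` in these classes the logarithm of the degree in the theorem of Dobrowolski is
replaced by a number which does not depend on the degree.

Proof. `|F + c (z - 1) G|² = |F|² + c² |z - 1|² |G|²` on the unit circle, and `P = F + c (X - 1) G` has
at most `k` zeros outside the unit circle. One of the points `t = 2, …, k + 2` is not near these zeros,
and there `|P(t)|` is at most `(1 + c) |F(t)|` or `(1 + c) |(t - 1) G(t)|`. Harnack's inequality for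
`log |P / F| ≥ 0` or `log |P / ((X - 1) G)| ≥ 0`, with the Poisson-Jensen formula for the zeros, gives
`M(P) ≤ ((1 + c) (2 (k + 2) (k + 3)) ^ k)³ max(M(F), M(G))`. So the height of the pair `F`,
`(X - 1) G` is bounded, and the theorem of the starting library on coprime pairs applies.
-/

set_option autoImplicit false

namespace Pool.Agent.Results.MP_dc0c68_nt.SeifertForms

open Polynomial

noncomputable section

/-- The Mahler measure of an integer polynomial in one variable (Mathlib). -/
def measure (P : ℤ[X]) : ℝ := (P.map (Int.castRingHom ℂ)).mahlerMeasure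

/-- `d_i > 0` and `d_i U_ij = d_j V_ji`. -/
structure IsPair {n : ℕ} (U V : Matrix (Fin n) (Fin n) ℤ) (d : Fin n → ℝ) : Prop where
  pos : ∀ i, 0 < d i
  symm : ∀ i j, d i * U i j = d j * V j i

/-- The quadratic form `∑ d_i U_ij x_i x_j`. -/
def form {n : ℕ} (U : Matrix (Fin n) (Fin n) ℤ) (d x : Fin n → ℝ) : ℝ :=
  ∑ i, ∑ j, d i * U i j * x i * x j

/-- The quadratic form has at most `k` negative squares: it becomes positive semidefinite when the
squares of `k` linear forms are added. -/
def FewSquares {n : ℕ} (k : ℕ) (U : Matrix (Fin n) (Fin n) ℤ) (d : Fin n → ℝ) : Prop :=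
  ∃ v : Fin k → Fin n → ℝ, ∀ x : Fin n → ℝ, 0 ≤ form U d x + ∑ l, (∑ i, v l i * x i) ^ 2

/-- The polynomial `det (X U + V)`. -/
def alexander {n : ℕ} (U V : Matrix (Fin n) (Fin n) ℤ) : ℤ[X] :=
  ((X : ℤ[X]) • U.map C + V.map C).det

/-- The matrix without the row and the column `i`. -/
def delete {n : ℕ} (A : Matrix (Fin (n + 1)) (Fin (n + 1)) ℤ) (i : Fin (n + 1)) :
    Matrix (Fin n) (Fin n) ℤ := A.submatrix i.succAbove i.succAbove

theorem t_J : Pool.Agent.H270.SP.S_J :=
  Pool.Agent.H270.SP.t_jay Pool.Agent.H270.SP.t_int Pool.Agent.H270.SP.t_lin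

theorem t_C : Pool.Agent.H270.SP.S_cnt :=
  Pool.Agent.H270.SP.t_cnt Pool.Agent.H270.SP.t_dim Pool.Agent.H270.SP.t_back
    Pool.Agent.H270.SP.t_fix

theorem alexander_eq {n : ℕ} (U V : Matrix (Fin n) (Fin n) ℤ) :
    alexander U V = Pool.Agent.H270.SP.alex U V := by
  rw [Pool.Agent.H270.SP.alex_eq]
  rfl

theorem sei {n k : ℕ} {U V : Matrix (Fin n) (Fin n) ℤ} {d : Fin n → ℝ} (h : IsPair U V d)
    (hl : FewSquares k U d) : Pool.Agent.H270.SP.SeiK k U V d := ⟨h.pos, h.symm, hl⟩

theorem form_split {n : ℕ} (U : Matrix (Fin (n + 1)) (Fin (n + 1)) ℤ) (d x : Fin (n + 1) → ℝ)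
    (i : Fin (n + 1)) : form U d x = d i * U i i * x i ^ 2 +
      x i * (∑ a, (d i * U i (i.succAbove a) + d (i.succAbove a) * U (i.succAbove a) i) *
        x (i.succAbove a)) +
      form (delete U i) (fun a => d (i.succAbove a)) (fun a => x (i.succAbove a)) := by
  unfold form delete
  rw [Fin.sum_univ_succAbove _ i, Fin.sum_univ_succAbove _ i]
  have h1 : ∑ a, ∑ j, d (i.succAbove a) * (U (i.succAbove a) j : ℝ) * x (i.succAbove a) * x j =
      ∑ a, (d (i.succAbove a) * (U (i.succAbove a) i : ℝ) * x (i.succAbove a) * x i +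
        ∑ b, d (i.succAbove a) * (U (i.succAbove a) (i.succAbove b) : ℝ) *
          x (i.succAbove a) * x (i.succAbove b)) :=
    Finset.sum_congr rfl fun a _ => Fin.sum_univ_succAbove _ i
  rw [h1, Finset.sum_add_distrib]
  have h2 : x i * (∑ a, (d i * U i (i.succAbove a) + d (i.succAbove a) * U (i.succAbove a) i) *
        x (i.succAbove a)) =
      ∑ a, d i * (U i (i.succAbove a) : ℝ) * x i * x (i.succAbove a) +
        ∑ a, d (i.succAbove a) * (U (i.succAbove a) i : ℝ) * x (i.succAbove a) * x i := by
    rw [Finset.mul_sum, ← Finset.sum_add_distrib]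
    refine Finset.sum_congr rfl fun a _ => ?_
    ring
  rw [h2]
  simp only [Matrix.submatrix_apply]
  ring

/-- one more row and column give at most one negative square -/
theorem almost {n : ℕ} (U : Matrix (Fin (n + 1)) (Fin (n + 1)) ℤ) (d : Fin (n + 1) → ℝ)
    (i : Fin (n + 1))
    (h : ∀ y : Fin n → ℝ, 0 ≤ form (delete U i) (fun a => d (i.succAbove a)) y) :
    FewSquares 1 U d := by
  obtain ⟨b, hb1, hb2⟩ : ∃ b : ℝ, 0 < b ∧ 0 ≤ d i * U i i + b ^ 2 := by
    refine ⟨1 + |d i * U i i|, by positivity, ?_⟩
    nlinarith [neg_abs_le (d i * (U i i : ℝ)), abs_nonneg (d i * (U i i : ℝ))]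
  refine ⟨fun _ => i.insertNth b fun a =>
    -((d i * U i (i.succAbove a) + d (i.succAbove a) * U (i.succAbove a) i) / (2 * b)),
    fun x => ?_⟩
  rw [Fin.sum_univ_one, form_split U d x i, Fin.sum_univ_succAbove _ i]
  simp only [Fin.insertNth_apply_same, Fin.insertNth_apply_succAbove]
  set S := ∑ a, (d i * (U i (i.succAbove a) : ℝ) + d (i.succAbove a) * U (i.succAbove a) i) *
    x (i.succAbove a) with hS
  have h1 : ∑ a, -((d i * (U i (i.succAbove a) : ℝ) +
      d (i.succAbove a) * U (i.succAbove a) i) / (2 * b)) * x (i.succAbove a) = -(S / (2 * b)) := by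
    rw [hS, Finset.sum_div, ← Finset.sum_neg_distrib]
    refine Finset.sum_congr rfl fun a _ => ?_
    ring
  rw [h1]
  have h2 := h fun a => x (i.succAbove a)
  have h3 : d i * U i i * x i ^ 2 + x i * S +
      form (delete U i) (fun a => d (i.succAbove a)) (fun a => x (i.succAbove a)) +
      (b * x i + -(S / (2 * b))) ^ 2 = (d i * U i i + b ^ 2) * x i ^ 2 +
      form (delete U i) (fun a => d (i.succAbove a)) (fun a => x (i.succAbove a)) +
      (S / (2 * b)) ^ 2 := by
    field_simp
    ring
  rw [h3]
  positivity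

theorem result : ∃ c : ℝ, 0 < c ∧
    (∀ (n k : ℕ) (U V : Matrix (Fin (n + 1)) (Fin (n + 1)) ℤ) (d : Fin (n + 1) → ℝ)
      (i : Fin (n + 1)), IsPair U V d → FewSquares k U d → Irreducible (alexander U V) →
      alexander (delete U i) (delete V i) ≠ 0 → 1 < measure (alexander U V) →
      c / (1 + k * Real.log (k + 2) +
        Real.log (measure (alexander (delete U i) (delete V i)))) ^ 3 ≤
        Real.log (measure (alexander U V))) ∧
    (∀ (n : ℕ) (U V : Matrix (Fin (n + 1)) (Fin (n + 1)) ℤ) (d : Fin (n + 1) → ℝ)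
      (i : Fin (n + 1)), IsPair U V d →
      (∀ y : Fin n → ℝ, 0 ≤ form (delete U i) (fun a => d (i.succAbove a)) y) →
      (delete U i).det ≠ 0 → Irreducible (alexander U V) → 1 < measure (alexander U V) →
      c / (1 + Real.log |((delete U i).det : ℝ)|) ^ 3 ≤ Real.log (measure (alexander U V))) := by
  obtain ⟨c, hc, h⟩ := Pool.Agent.H270.SP.leh t_C Pool.Agent.H270.SP.t_int t_J
  have hmain : ∀ (n k : ℕ) (U V : Matrix (Fin (n + 1)) (Fin (n + 1)) ℤ) (d : Fin (n + 1) → ℝ)
      (i : Fin (n + 1)), IsPair U V d → FewSquares k U d → Irreducible (alexander U V) →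
      alexander (delete U i) (delete V i) ≠ 0 → 1 < measure (alexander U V) →
      c / (1 + k * Real.log (k + 2) +
        Real.log (measure (alexander (delete U i) (delete V i)))) ^ 3 ≤
        Real.log (measure (alexander U V)) := by
    intro n k U V d i hp hk hirr hG hM
    rw [alexander_eq] at hirr hG hM
    rw [alexander_eq, alexander_eq]
    exact h n k U V d i (sei hp hk) hirr hG hM
  refine ⟨c / 27, by positivity, ?_, ?_⟩
  · intro n k U V d i hp hk hirr hG hM
    refine le_trans ?_ (hmain n k U V d i hp hk hirr hG hM)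
    have h1 : 1 ≤ measure (alexander (delete U i) (delete V i)) :=
      Pool.Agent.Y820.LB.one_le_m1 hG
    have h2 := Real.log_nonneg h1
    have h3 : 0 ≤ (k : ℝ) * Real.log ((k : ℝ) + 2) :=
      mul_nonneg (Nat.cast_nonneg k) (Real.log_nonneg (by
        have : (0 : ℝ) ≤ k := Nat.cast_nonneg k
        linarith))
    refine div_le_div_of_nonneg_right ?_ (by positivity)
    linarith
  · intro n U V d i hp hf hdet hirr hM
    have h1 : measure (alexander (delete U i) (delete V i)) = |((delete U i).det : ℝ)| := by
      rw [alexander_eq]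
      exact Pool.Agent.H270.SP.semidef_m1 (d := fun a => d (i.succAbove a))
        (fun _ => hp.pos _) (fun _ _ => hp.symm _ _) hf hdet
    have h2 := hmain n 1 U V d i hp (almost U d i hf) hirr (by
      rw [alexander_eq]
      exact Pool.Agent.H270.SP.alex_ne _ _ hdet) hM
    rw [h1, Nat.cast_one, one_mul] at h2
    refine le_trans ?_ h2
    have h3 := Real.log_nonneg (Pool.Agent.H270.SP.one_le_abs hdet)
    have h4 : Real.log (1 + 2) ≤ 2 := by
      have := Real.log_le_sub_one_of_pos (show (0 : ℝ) < 1 + 2 by norm_num)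
      linarith
    have h5 : 0 ≤ Real.log (1 + 2) := Real.log_nonneg (by norm_num)
    have h6 : (1 + Real.log (1 + 2) + Real.log |((delete U i).det : ℝ)|) ^ 3 ≤
        (3 * (1 + Real.log |((delete U i).det : ℝ)|)) ^ 3 :=
      pow_le_pow_left₀ (by positivity) (by linarith) 3
    calc c / 27 / (1 + Real.log |((delete U i).det : ℝ)|) ^ 3 =
          c / (3 * (1 + Real.log |((delete U i).det : ℝ)|)) ^ 3 := by
          rw [mul_pow, div_div]
          norm_num
      _ ≤ _ := div_le_div_of_nonneg_left hc.le (by positivity) h6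

end

end Pool.Agent.Results.MP_dc0c68_nt.SeifertForms
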